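import Mathlib

set_option autoImplicit false

namespace Pool.Agent.Results.MP_2fe121_gt.OpenProj

open Complex Metric Topology Filter
open scoped ComplexConjugate

abbrev E (n : ℕ) := EuclideanSpace ℝ (Fin n)

noncomputable def nn (p q : ℂ) : ℝ := normSq p + normSq q

noncomputable def hopf (p q : ℂ) : E 3 :=
  !₂[(2 * p * conj q).re / nn p q, (2 * p * conj q).im / nn p q, (normSq p - normSq q) / nn p q]

noncomputable def ze (x : E 3) : ℂ := x 0 + x 1 * I

theorem nn_pos (w v : ℂ) : 0 < nn (1 + 2 * v * w) w := by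
  by_cases h : w = 0
  · simp [nn, h]
  · exact add_pos_of_nonneg_of_pos (normSq_nonneg _) (normSq_pos.2 h)

theorem mem_sph (x : E 3) : x ∈ sphere (0 : E 3) 1 ↔ x 0 ^ 2 + x 1 ^ 2 + x 2 ^ 2 = 1 := by
  rw [mem_sphere_zero_iff_norm, EuclideanSpace.norm_eq, Real.sqrt_eq_one, Fin.sum_univ_three]
  simp

theorem hopf_mem {p q : ℂ} (h : 0 < nn p q) : hopf p q ∈ sphere (0 : E 3) 1 := by
  rw [mem_sph]
  have h' := h.ne'
  simp only [hopf, Matrix.cons_val_zero, Matrix.cons_val_one, Matrix.cons_val]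
  field_simp
  simp [nn, normSq_apply]; ring

theorem ze_hopf (p q : ℂ) : ze (hopf p q) = 2 * p * conj q / (nn p q : ℂ) := by
  simp only [ze, hopf, Matrix.cons_val_zero, Matrix.cons_val_one, Matrix.cons_val]
  push_cast
  rw [div_mul_eq_mul_div, ← add_div, re_add_im]

theorem t_hopf (p q : ℂ) : ((hopf p q 2 : ℝ) : ℂ) = (p * conj p - q * conj q) / (nn p q : ℂ) := by
  simp only [hopf, Matrix.cons_val]
  push_cast
  rw [mul_conj, mul_conj]

theorem nn_c (p q : ℂ) : (nn p q : ℂ) = p * conj p + q * conj q := by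
  rw [mul_conj, mul_conj, nn]; push_cast; rfl

theorem ext3 {x y : E 3} (h1 : ze x = ze y) (h2 : ((x 2 : ℝ) : ℂ) = ((y 2 : ℝ) : ℂ)) : x = y := by
  have a := congrArg re h1
  have b := congrArg im h1
  simp [ze] at a b
  ext i
  fin_cases i
  exacts [a, b, by exact_mod_cast h2]

theorem rel1 {p q : ℂ} (h : 0 < nn p q) : q * (1 + (hopf p q 2 : ℝ)) = p * conj (ze (hopf p q)) := by
  have h' : (nn p q : ℂ) ≠ 0 := by exact_mod_cast h.ne'
  rw [ze_hopf, t_hopf, map_div₀, conj_ofReal]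
  simp only [map_mul, conj_conj, map_ofNat]
  field_simp
  rw [nn_c]; ring

theorem rel2 {p q : ℂ} (h : 0 < nn p q) : q * ze (hopf p q) = p * (1 - (hopf p q 2 : ℝ)) := by
  have h' : (nn p q : ℂ) ≠ 0 := by exact_mod_cast h.ne'
  rw [ze_hopf, t_hopf]
  field_simp
  rw [nn_c]; ring

/-- a point of the sphere satisfying both relations is the Hopf image -/
theorem eq_hopf {p q : ℂ} (h : 0 < nn p q) {x : E 3}
    (r1 : q * (1 + (x 2 : ℝ)) = p * conj (ze x)) (r2 : q * ze x = p * (1 - (x 2 : ℝ))) :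
    hopf p q = x := by
  have h' : (nn p q : ℂ) ≠ 0 := by exact_mod_cast h.ne'
  have r1' := congrArg conj r1
  have r2' := congrArg conj r2
  simp only [map_mul, map_add, map_sub, map_one, conj_ofReal, conj_conj] at r1' r2'
  apply ext3
  · rw [ze_hopf, div_eq_iff h', nn_c]
    linear_combination p * r1' - conj q * r2
  · rw [t_hopf, div_eq_iff h', nn_c]
    linear_combination - conj q * r1 - p * r2'

noncomputable def G (z : closedBall (0 : ℂ × ℂ) 1) : sphere (0 : E 3) 1 :=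
  ⟨hopf (1 + 2 * z.1.2 * z.1.1) z.1.1, hopf_mem (nn_pos _ _)⟩

theorem cont_G : Continuous G := by
  refine Continuous.subtype_mk ?_ _
  refine (PiLp.continuous_toLp 2 _).comp (continuous_pi fun i => ?_)
  have hn : Continuous fun z : closedBall (0 : ℂ × ℂ) 1 => nn (1 + 2 * z.1.2 * z.1.1) z.1.1 := by
    unfold nn; fun_prop
  fin_cases i <;> simp only [Fin.zero_eta, Fin.mk_one, Fin.reduceFinMk, Matrix.cons_val_zero,
    Matrix.cons_val_one, Matrix.cons_val] <;>
    exact Continuous.div (by fun_prop) hn fun z => (nn_pos _ _).ne'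

theorem inj_G {a b : closedBall (0 : ℂ × ℂ) 1} (h : G a = G b) (hv : a.1.2 = b.1.2) : a = b := by
  have e : hopf (1 + 2 * a.1.2 * a.1.1) a.1.1 = hopf (1 + 2 * b.1.2 * b.1.1) b.1.1 := congrArg Subtype.val h
  have a1 := rel1 (nn_pos a.1.1 a.1.2)
  have a2 := rel2 (nn_pos a.1.1 a.1.2)
  have b1 := rel1 (nn_pos b.1.1 b.1.2)
  have b2 := rel2 (nn_pos b.1.1 b.1.2)
  rw [e, hv] at a1 a2
  refine Subtype.ext (Prod.ext ?_ hv)
  linear_combination (1 / 2 : ℂ) * ((1 + 2 * b.1.2 * b.1.1) * a1 - (1 + 2 * b.1.2 * a.1.1) * b1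
    - a.1.1 * b2 + b.1.1 * a2)

theorem mem_ball2 (z : ℂ × ℂ) : z ∈ closedBall (0 : ℂ × ℂ) 1 ↔ ‖z.1‖ ≤ 1 ∧ ‖z.2‖ ≤ 1 := by
  rw [mem_closedBall_zero_iff, Prod.norm_def, max_le_iff]

theorem nhds_int {U : Set (closedBall (0 : ℂ × ℂ) 1)} (hU : IsOpen U) {a : closedBall (0 : ℂ × ℂ) 1}
    (ha : a ∈ U) (hw : ‖a.1.1‖ < 1) : G '' U ∈ 𝓝 (G a) := by
  obtain ⟨V, hV, rfl⟩ := isOpen_induced_iff.1 hU
  obtain ⟨⟨w, v⟩, hwv⟩ := a
  have hv := ((mem_ball2 _).1 hwv).2
  simp only at hw hv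
  set p := 1 + 2 * v * w with hp
  let P : sphere (0 : E 3) 1 → ℂ := fun x => p * (1 + (x.1 2 : ℝ)) + w * ze x.1
  let Q : sphere (0 : E 3) 1 → ℂ := fun x => p * conj (ze x.1) + w * (1 - (x.1 2 : ℝ))
  have hP : Continuous P := by unfold P ze; fun_prop
  have hQ : Continuous Q := by unfold Q ze; fun_prop
  have a1 := rel1 (nn_pos w v)
  have a2 := rel2 (nn_pos w v)
  have hP0 : P (G ⟨(w, v), hwv⟩) = 2 * p := by
    simp only [P, G]; linear_combination a2
  have hQ0 : Q (G ⟨(w, v), hwv⟩) = 2 * w := by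
    simp only [Q, G]; linear_combination - a1
  have hD0 : P (G ⟨(w, v), hwv⟩) - 2 * v * Q (G ⟨(w, v), hwv⟩) = 2 := by
    rw [hP0, hQ0, hp]; ring
  have hD : Continuous fun x => P x - 2 * v * Q x := by fun_prop
  have hs : Tendsto (fun x => Q x / (P x - 2 * v * Q x)) (𝓝 (G ⟨(w, v), hwv⟩)) (𝓝 w) := by
    have := (hQ.continuousAt (x := G ⟨(w, v), hwv⟩)).div hD.continuousAt (by rw [hD0]; norm_num)
    rw [ContinuousAt] at this
    simp only [Pi.div_apply] at this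
    rw [hD0, hQ0, mul_div_cancel_left₀ _ (two_ne_zero)] at this
    exact this
  have e1 := hD.continuousAt.eventually_ne (x := G ⟨(w, v), hwv⟩) (y := 0) (by rw [hD0]; norm_num)
  have e2 := hs.norm.eventually (gt_mem_nhds hw)
  have e3 := (hs.prodMk_nhds (tendsto_const_nhds (x := v))).eventually (hV.mem_nhds ha)
  filter_upwards [e1, e2, e3] with x h1 h2 h3
  refine ⟨⟨(Q x / (P x - 2 * v * Q x), v), (mem_ball2 _).2 ⟨h2.le, hv⟩⟩, h3, Subtype.ext ?_⟩
  have hx : ze x.1 * conj (ze x.1) = 1 - ((x.1 2 : ℝ) : ℂ) ^ 2 := by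
    have := (mem_sph x.1).1 x.2
    rw [mul_conj, ze, normSq_add_mul_I]
    rw [show x.1 0 ^ 2 + x.1 1 ^ 2 = 1 - x.1 2 ^ 2 by linarith]
    push_cast; rfl
  have e : 1 + 2 * v * (Q x / (P x - 2 * v * Q x)) = P x / (P x - 2 * v * Q x) := by
    field_simp; ring
  refine eq_hopf (nn_pos _ _) ?_ ?_
  · simp only
    rw [e, div_mul_eq_mul_div, div_mul_eq_mul_div]
    congr 1
    simp only [P, Q]; linear_combination - w * hx
  · simp only
    rw [e, div_mul_eq_mul_div, div_mul_eq_mul_div]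
    congr 1
    simp only [P, Q]; linear_combination p * hx

theorem path {u v : ℂ} (hu : ‖u‖ = 1) (hv : ‖v‖ ≤ 1) : ∃ g : ℝ → ℂ, Continuous g ∧ g 0 = v ∧
    ∀ s, 0 < s → s < 1 → ‖g s‖ ≤ 1 ∧ 1 < ‖u - 2 * (g s - v)‖ := by
  by_cases h : u + v = 0
  · obtain rfl : v = -u := by linear_combination h
    refine ⟨fun s => -u * (((1 - s ^ 2 : ℝ) : ℂ) + s * I), by fun_prop, by simp, fun s h0 h1 => ⟨?_, ?_⟩⟩
    · rw [norm_mul, norm_neg, hu, one_mul, norm_add_mul_I, Real.sqrt_le_one]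
      have : s ^ 2 < 1 := by nlinarith
      nlinarith [sq_nonneg s]
    · have : u - 2 * (-u * (((1 - s ^ 2 : ℝ) : ℂ) + s * I) - -u)
          = u * (((1 - 2 * s ^ 2 : ℝ) : ℂ) + ((2 * s : ℝ) : ℂ) * I) := by push_cast; ring
      rw [this, norm_mul, hu, one_mul, norm_add_mul_I, Real.lt_sqrt zero_le_one]
      nlinarith [pow_pos h0 4]
  · refine ⟨fun s => ((1 - s : ℝ) : ℂ) * v + s * (-u), by fun_prop, by simp, fun s h0 h1 => ⟨?_, ?_⟩⟩
    · refine (norm_add_le _ _).trans ?_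
      rw [norm_mul, norm_mul, norm_neg, hu, norm_real, norm_real, Real.norm_of_nonneg (by linarith),
        Real.norm_of_nonneg h0.le]
      nlinarith
    · have h2 : 0 < normSq (u + v) := normSq_pos.2 h
      have h3 : normSq u = 1 := by rw [normSq_eq_norm_sq, hu]; norm_num
      have h4 : normSq v ≤ 1 := by rw [normSq_eq_norm_sq]; nlinarith [norm_nonneg v]
      have : 1 < normSq (u - 2 * (((1 - s : ℝ) : ℂ) * v + s * (-u) - v)) := by
        simp only [normSq_apply, add_re, add_im] at h2 h3 h4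
        simp [normSq_apply]
        have h5 : 0 ≤ 1 + (u.re * v.re + u.im * v.im) := by
          nlinarith [sq_nonneg (u.re + v.re), sq_nonneg (u.im + v.im)]
        nlinarith [mul_nonneg h0.le h5, mul_pos (mul_pos h0 h0) h2]
      rw [normSq_eq_norm_sq] at this
      exact lt_of_pow_lt_pow_left₀ 2 (norm_nonneg _) (by simpa using this)

theorem open_G : IsOpenMap G := by
  intro U hU
  rw [isOpen_iff_mem_nhds]
  rintro _ ⟨a, ha, rfl⟩
  obtain ⟨⟨w, v⟩, hwv⟩ := a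
  obtain ⟨hw, hv⟩ := (mem_ball2 _).1 hwv
  simp only at hw hv
  rcases hw.lt_or_eq with hw | hw
  · exact nhds_int hU ha hw
  have hw0 : w ≠ 0 := by rintro rfl; simp at hw
  obtain ⟨g, hg, hg0, hgs⟩ := path (u := w⁻¹) (by rw [norm_inv, hw, inv_one]) hv
  obtain ⟨V, hV, rfl⟩ := isOpen_induced_iff.1 hU
  have hc : ContinuousAt (fun s => ((w⁻¹ - 2 * (g s - v))⁻¹, g s)) 0 :=
    (ContinuousAt.inv₀ (by fun_prop) (by simp [hg0, hw0])).prodMk hg.continuousAt
  have e1 : ∀ᶠ s in 𝓝[>] (0 : ℝ), ((w⁻¹ - 2 * (g s - v))⁻¹, g s) ∈ V :=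
    nhdsWithin_le_nhds (hc.eventually (hV.mem_nhds (by simpa [hg0] using ha)))
  obtain ⟨s, h1, h2, h3⟩ := (e1.and (Ioo_mem_nhdsGT (show (0 : ℝ) < 1 from one_pos))).exists
  obtain ⟨h4, h5⟩ := hgs s h2 h3
  have h6 : ‖(w⁻¹ - 2 * (g s - v))⁻¹‖ < 1 := by rw [norm_inv]; exact inv_lt_one_of_one_lt₀ h5
  have h7 : w⁻¹ - 2 * (g s - v) ≠ 0 := by intro h; rw [h] at h5; norm_num at h5
  have key := nhds_int hU (a := ⟨((w⁻¹ - 2 * (g s - v))⁻¹, g s), (mem_ball2 _).2 ⟨h6.le, h4⟩⟩) h1 h6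
  convert key using 2
  refine Subtype.ext (eq_hopf (nn_pos _ _) ?_ ?_).symm
  all_goals
    have a1 := rel1 (nn_pos w v)
    have a2 := rel2 (nn_pos w v)
    have b1 := mul_inv_cancel₀ hw0
    have b2 := mul_inv_cancel₀ h7
    simp only [G]
    generalize (w⁻¹ - 2 * (g s - v))⁻¹ = y at *
    generalize w⁻¹ = u at *
    have c1 : y = (y * u) * w := by linear_combination - y * b1
    have c2 : 1 + 2 * g s * y = (y * u) * (1 + 2 * v * w) := by
      linear_combination - b2 - 2 * v * y * b1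
    rw [c2]
  · linear_combination (y * u) * a1 + (1 + ((hopf (1 + 2 * v * w) w 2 : ℝ) : ℂ)) * c1
  · linear_combination (y * u) * a2 + ze (hopf (1 + 2 * v * w) w) * c1

theorem result : ∃ e : closedBall (0 : E 4) 1 → sphere (0 : E 3) 1 × E 2,
    Continuous e ∧ Function.Injective e ∧ IsOpenMap (Prod.fst ∘ e) := by
  let L : E 4 ≃L[ℝ] ℂ × ℂ := ContinuousLinearEquiv.ofFinrankEq (by simp)
  let M : ℂ ≃L[ℝ] E 2 := ContinuousLinearEquiv.ofFinrankEq (by simp)
  obtain ⟨h, -, h2, -⟩ := exists_homeomorph_image_interior_closure_frontier_eq_unitBall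
    (s := L ⁻¹' closedBall (0 : ℂ × ℂ) 1)
    ((convex_closedBall _ _).linear_preimage L.toLinearEquiv.toLinearMap)
    (by
      refine ⟨0, mem_interior_iff_mem_nhds.2 (L.continuous.continuousAt.preimage_mem_nhds ?_)⟩
      rw [map_zero]
      exact closedBall_mem_nhds _ one_pos)
    (L.antilipschitz.isBounded_preimage isBounded_closedBall)
  rw [(isClosed_closedBall.preimage L.continuous).closure_eq] at h2
  let H : closedBall (0 : E 4) 1 ≃ₜ closedBall (0 : ℂ × ℂ) 1 :=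
    (h.symm.trans L.toHomeomorph).subtype fun x => by
      rw [← h2]
      constructor
      · rintro ⟨y, hy, rfl⟩; simpa using hy
      · intro hx; exact ⟨h.symm x, hx, by simp⟩
  refine ⟨fun x => (G (H x), M (H x).1.2), ?_, fun x y hxy => ?_, open_G.comp H.isOpenMap⟩
  · exact (cont_G.comp H.continuous).prodMk (by fun_prop)
  · exact H.injective (inj_G (congrArg Prod.fst hxy) (M.injective (congrArg Prod.snd hxy)))

end Pool.Agent.Results.MP_2fe121_gt.OpenProj
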